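import Pool.Agent.TH211.AF.Final

set_option autoImplicit false

namespace Pool.Agent.Results.MP_2a8a61_ag.ExponentOne

open MvPolynomial Pool.Agent.TH211.AF

/-- For all `n ≥ 2` and `d ≥ 3`: the discriminant `Δ` of the space of forms of degree `d` in `n`
variables exists and is unique up to a nonzero scalar, every nondegenerate form has a unique
associated form, and the smallest positive integer `p` such that `Δ ^ p * Φ` extends to a morphism
on the space of all forms is `1`. -/
theorem result (n d : ℕ) (hn : 2 ≤ n) (hd : 3 ≤ d) :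
    (∃ Δ, IsDiscriminant n d Δ) ∧
    (∀ Δ Δ', IsDiscriminant n d Δ → IsDiscriminant n d Δ' → ∃ u : ℂ, u ≠ 0 ∧ Δ' = C u * Δ) ∧
    (∀ c : Expo n d → ℂ, Nondegenerate c → ∃! F, IsAssociatedForm c F) ∧
    ∀ Δ, IsDiscriminant n d Δ → minExponent Δ = 1 :=
  ⟨exists_discriminant (by omega) (by omega),
    discriminant_unique (by omega) (by omega),
    fun c hc => existsUnique_associatedForm hn hd c hc,
    fun Δ hΔ => minExponent_eq_one hn hd Δ hΔ⟩

end Pool.Agent.Results.MP_2a8a61_ag.ExponentOne
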